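import Mathlib
import Pool.Agent.Run7.h205.GM.Half
import Pool.Agent.Run7.h205.GM.Lines
import Pool.Agent.Run7.h205.GM.Mult

/-!
# Values of the Gamma function at algebraic irrational points, and at tuples of transcendence degree `n - 1`

The case `n = 1` of the conjecture says that `Γ(z)` is transcendental for every algebraic irrational `z`; the case of
algebraic `z_i` says that the `Γ(z_i)` are algebraically independent. We prove results for given points.

(1) For `n`-tuples `z` of transcendence degree at least `n - 1` such that `π` is transcendental over `ℚ(z)`: of two tuples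
`u`, `v` with `u_i = a_i z_i + b_i` and `v_i = ± u_i` at least one satisfies the inequality of the conjecture, except
possibly if the `u_i` with `v_i ≠ u_i` are in given classes `± w_i + ℤ`, one for each `i`.
(2) The case `n = 1`: on every line `ℚ α + ℚ`, `α` algebraic irrational, at least one of `Γ(z)`, `Γ(-z)` is transcendental,
for all irrational points `z` outside one class `± w + ℤ`.
(3) On the lines `ℚ i y + ℚ`, `y` real algebraic, all values at points with real part in `ℤ / 2` are transcendental,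
with the possible exception of one class.
(4) In a number field `K` of degree `d` (or in `λ K`, `λ` algebraic) the exceptional points for (2) lie in a rational
subspace of dimension at most `√(4 d + 1) - 1`. Outside of it one of `Γ(z)`, `Γ(-z)` is even algebraically independent of `π`;
so is `Γ(z)` if `z - k / 2` is imaginary.
(5) The first part of this for the points `z = λ P(π) + b`, `P` a rational polynomial of degree at most `n` outside
a subspace `U` of these polynomials, of dimension at most `√(4 n + 1)`.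
(6) The case `n = 2` of the conjecture for algebraic numbers: among sufficiently many lines in a number field (two in a
cubic field) there are points of different lines, any given ones up to sign, at which the values are algebraically
independent.
(7) For all `m ≥ 2` and all algebraic irrational `z` outside one line at least one of the numbers `Γ(z + j / m)`,
`0 ≤ j < m`, `Γ(m z)` is transcendental.

The proofs use the reflection and the multiplication formula, Baker's theorem (`Pool.Agent.H297R2.baker`), and the linear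
subgroup theorem in transcendence degree one (`Pool.Agent.W243.TD.prod1`, `fam1`) of the starting files.
-/

set_option autoImplicit false

namespace Pool.Agent.Results.MP_26ad15_nt.AlgebraicPoints

open Module

/-- the numbers `a z + b` with rational `a ≠ 0` and `b` -/
def Line (z : ℂ) : Set ℂ := {w | ∃ a b : ℚ, a ≠ 0 ∧ w = a * z + b}

/-- `w` is `z` or `-z` up to an integer -/
def Same (z w : ℂ) : Prop := ∃ n : ℤ, w = z + n ∨ w = -z + n

/-- the inequality of the conjecture for the tuple `u` -/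
def Bound {n : ℕ} (u : Fin n → ℂ) : Prop :=
  (n : Cardinal) ≤ Algebra.trdeg ℚ
    (IntermediateField.adjoin ℚ (Set.range u ∪ Set.range fun i => Complex.Gamma (u i)))

theorem result :
    -- (1) tuples of transcendence degree `n - 1`
    (∀ (n : ℕ) (z : Fin n → ℂ), (∀ i, ∀ q : ℚ, z i ≠ q) →
      ((n - 1 : ℕ) : Cardinal) ≤ Algebra.trdeg ℚ (IntermediateField.adjoin ℚ (Set.range z)) →
      Transcendental (IntermediateField.adjoin ℚ (Set.range z)) (Real.pi : ℂ) →
      ∃ w : Fin n → ℂ, ∀ u v : Fin n → ℂ, (∀ i, u i ∈ Line (z i)) → (∀ i, v i = u i ∨ v i = -u i) →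
        (∃ i, v i ≠ u i ∧ ¬ Same (w i) (u i)) → Bound u ∨ Bound v) ∧
    -- (2) one algebraic irrational number
    (∀ α : ℂ, IsAlgebraic ℚ α → (∀ q : ℚ, α ≠ q) → ∃ w : ℂ, ∀ z ∈ Line α, ¬ Same w z →
      Transcendental ℚ (Complex.Gamma z) ∨ Transcendental ℚ (Complex.Gamma (-z))) ∧
    -- (3) imaginary lines
    (∀ y : ℝ, IsAlgebraic ℚ y → y ≠ 0 → ∃ w : ℂ, ∀ (a : ℚ) (k : ℤ), a ≠ 0 →
      ¬ Same w (k / 2 + a * y * Complex.I) → Transcendental ℚ (Complex.Gamma (k / 2 + a * y * Complex.I))) ∧
    -- (4) number fields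
    (∀ (K : IntermediateField ℚ ℂ) [FiniteDimensional ℚ K] (l : ℂ), IsAlgebraic ℚ l → l ≠ 0 →
      ∃ W : Submodule ℚ K, (finrank ℚ W + 1) ^ 2 ≤ 4 * finrank ℚ K + 1 ∧ ∀ x : K, x ∉ W →
        (∀ b : ℚ, AlgebraicIndependent ℚ ![(Real.pi : ℂ), Complex.Gamma (l * x + b)] ∨
          AlgebraicIndependent ℚ ![(Real.pi : ℂ), Complex.Gamma (-(l * x + b))]) ∧
        ((l * (x : ℂ)).re = 0 → ∀ k : ℤ,
          AlgebraicIndependent ℚ ![(Real.pi : ℂ), Complex.Gamma (l * x + k / 2)])) ∧
    -- (5) polynomials in `π`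
    (∀ (n : ℕ) (l : ℂ), IsAlgebraic ℚ l → l ≠ 0 →
      ∃ U : Submodule ℚ (Polynomial ℚ), (∀ P ∈ U, P.natDegree ≤ n) ∧ finrank ℚ U ^ 2 ≤ 4 * n + 1 ∧
        ∀ P : Polynomial ℚ, P.natDegree ≤ n → P ∉ U → ∀ b : ℚ,
          AlgebraicIndependent ℚ ![(Real.pi : ℂ), Complex.Gamma (l * Polynomial.aeval (Real.pi : ℂ) P + b)] ∨
          AlgebraicIndependent ℚ ![(Real.pi : ℂ), Complex.Gamma (-(l * Polynomial.aeval (Real.pi : ℂ) P + b))]) ∧
    -- (6) algebraic independence of two values
    (∀ (K : IntermediateField ℚ ℂ) [FiniteDimensional ℚ K] (n : ℕ), 4 * finrank ℚ K + 1 < (n + 2) ^ 2 →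
      ∀ β : Fin n → K, LinearIndependent ℚ (fun o : Option (Fin n) => o.elim (1 : K) β) → ∀ i : Fin n,
      ∃ z₀ : ℂ, ∀ z ∈ Line (β i : ℂ), ¬ Same z₀ z → ∃ w₀ : Fin n → ℂ, ∀ w : Fin n → ℂ, w i = z →
        (∀ j, j ≠ i → w j ∈ Line (β j : ℂ) ∧ ¬ Same (w₀ j) (w j)) →
        ∃ j k, j ≠ k ∧ ∃ s t : ℂ, (s = w j ∨ s = -w j) ∧ (t = w k ∨ t = -w k) ∧
          AlgebraicIndependent ℚ ![Complex.Gamma s, Complex.Gamma t]) ∧
    -- (7) the arguments of the multiplication formula
    (∃ z₀ : ℂ, ∀ m : ℕ, 2 ≤ m → ∀ z : ℂ, IsAlgebraic ℚ z → (∀ q : ℚ, z ≠ q) → z ∉ Line z₀ →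
      (∃ j : ℕ, j < m ∧ Transcendental ℚ (Complex.Gamma (z + j / m))) ∨
        Transcendental ℚ (Complex.Gamma (m * z))) := by
  refine ⟨?_, ?_, ?_, ?_, ?_, ?_, ?_⟩
  · intro n z h1 h2 h3
    exact Pool.Agent.Run7.h205.GM.half z h1 h2 h3
  · intro α h1 h2
    exact Pool.Agent.Run7.h205.GM.part1 h1 h2
  · intro y h1 h2
    exact Pool.Agent.Run7.h205.GM.part2 h1 h2
  · intro K _ l h1 h2
    exact Pool.Agent.Run7.h205.GM.part3 K h1 h2
  · intro n l h1 h2
    exact Pool.Agent.Run7.h205.GM.part3b n h1 h2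
  · intro K _ n hn β hli i
    exact Pool.Agent.Run7.h205.GM.part4 K hn β hli i
  · by_cases hex : ∃ (m : ℕ) (z : ℂ), 2 ≤ m ∧ IsAlgebraic ℚ z ∧ (∀ q : ℚ, z ≠ q) ∧
        Pool.Agent.Run7.h205.GM.AllAlg m z
    · obtain ⟨m, z, hm, hz, hzi, hall⟩ := hex
      refine ⟨z, fun k hk w hw hwi hne => ?_⟩
      by_contra hcon
      rw [not_or] at hcon
      push Not at hcon
      refine hne ?_
      refine Pool.Agent.Run7.h205.GM.part5 hm hk hz hw hzi hwi hall ⟨fun j hj => ?_, ?_⟩
      · exact not_not.1 (hcon.1 j hj)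
      · exact not_not.1 hcon.2
    · refine ⟨0, fun k hk w hw hwi _ => ?_⟩
      by_contra hcon
      rw [not_or] at hcon
      push Not at hcon
      refine hex ⟨k, w, hk, hw, hwi, fun j hj => ?_, ?_⟩
      · exact not_not.1 (hcon.1 j hj)
      · exact not_not.1 hcon.2

end Pool.Agent.Results.MP_26ad15_nt.AlgebraicPoints
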