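import Pool.Agent.Results.MP_26ad15_nt.RationalParameters
import Pool.Agent.Run7.h95.LF.Frac

/-!
# π and values of the Gamma function at all rational parameters near the values of generic systems of linear forms

Let `v_i`, `i` in a countable set, be vectors in `ℝ^k` such that for every `ε > 0` at most `C X ^ (τ + ε)` of them have norm at
most `X`; for instance all `(b_1^(n_1), …, b_k^(n_k))` with `b_j > 1` (`τ = 0`), all `(1, n, …, n^d)` (`τ = 1 / d`), or all
`(n_1^(a_1), …, n_k^(a_k))` (`τ` the sum of the `1 / a_j`).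
Let `α_j > 0` and `γ_j` be real numbers such that no nonzero integer vector `m` satisfies both `∑ m_j α_j = 0` and
`∑ m_j α_j log α_j = 0`. Let `A ≥ 0` and `β > 2 - 2 / ((d + 1)^(n + 1) + 1)`. There is `B` such that for all such families,
`0 ≤ θ < 1`, all real `2 × k` matrices `M` outside a set of Hausdorff dimension at most `2 (k - 1) + (β + τ) / (1 - θ)` (less
than `2 k` for `2 θ < 2 - β - τ`), each `c` and all but finitely many `i` the following is true for ALL fractions
`q = y / x` in `[a, b]` with `|x - (M v_i)_1| ≤ c |v_i| ^ θ` and `|y - (M v_i)_2| ≤ c |v_i| ^ θ`: no nonzero polynomial of degree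
at most `d` in each variable with integer coefficients of absolute value at most `H(q) ^ A` takes at the `n + 1` numbers `π` and
`Γ(α_j q + γ_j)` a value of absolute value at most `H(q) ^ (-B)`. (The starting files treat fractions near `f_k(u)`, radial
starshaped maps with a parameter `u` in the plane.)

Proof. The starting theorem `RationalParameters` bounds the number of the exceptional `q` with denominator at most `T`; the
matrices with such a `q` in the window of `v_i` form products of slabs, which are covered by few small cubes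
(`Pool.Agent.N251.LF`).
-/

set_option autoImplicit false

namespace Pool.Agent.Results.MP_26ad15_nt.GenericLinearForms

open RationalParameters (values)
open Pool.Agent.N251.LF (Fam Sq examples)

/-- the height of a rational number: the maximum of the absolute values of numerator and denominator -/
def ht (q : ℚ) : ℕ := max q.num.natAbs q.den

/-- The denominator and the numerator of `q` differ by at most `δ` from the two entries of `M x`. -/
def Near {k : ℕ} (M : Fin 2 × Fin k → ℝ) (x : Fin k → ℝ) (δ : ℝ) (q : ℚ) : Prop :=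
  |(q.den : ℝ) - ∑ j, M (0, j) * x j| ≤ δ ∧ |(q.num : ℝ) - ∑ j, M (1, j) * x j| ≤ δ

/-- **Theorem.** Let `α_j > 0` and `γ_j` be real numbers such that no nonzero integer vector `m` satisfies both
`∑ m_j α_j = 0` and `∑ m_j α_j log α_j = 0`, let `α_j a + γ_j > 0`, `a < b`, `A ≥ 0` and
`β > 2 - 2 / ((d + 1)^(n + 1) + 1)`. There is `B` such that for every family `v` of vectors in `ℝ^k` with at most
`C X ^ (τ + η)` members of norm at most `X`, for every `η > 0`, and `0 ≤ θ < 1` there is a set `E` of real `2 × k` matrices of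
Hausdorff dimension at most `2 (k - 1) + (β + τ) / (1 - θ)` (less than `2 k`, and of measure zero, if `2 θ < 2 - β - τ`) such
that for each matrix `M` outside `E`, each `c` and all but finitely many `i`, for ALL rational numbers `q` in `[a, b]` whose
denominator and numerator differ by at most `c ‖v_i‖ ^ θ` from the two entries of `M v_i`, and `H` the height of `q`: no
nonzero polynomial of degree at most `d` in each variable with integer coefficients of absolute value at most `H ^ A` takes at
the `n + 1` numbers `π` and `Γ(α_j q + γ_j)` a value of absolute value at most `H ^ (-B)`. Examples of families. -/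
theorem result (n d : ℕ) (α γ : Fin n → ℝ) (hα : ∀ j, 0 < α j)
    (hH : ∀ m : Fin n → ℤ, ∑ j, (m j : ℝ) * α j = 0 → ∑ j, (m j : ℝ) * (α j * Real.log (α j)) = 0 → m = 0)
    (a b : ℝ) (hab : a < b) (ha : ∀ j, 0 < α j * a + γ j) (A β : ℝ) (hA : 0 ≤ A)
    (hβ : 2 - 2 / (((d : ℝ) + 1) ^ (n + 1) + 1) < β) :
    (∃ B : ℝ, ∀ (k : ℕ) (ι : Type) (v : ι → Fin k → ℝ) (τ θ : ℝ), 0 ≤ τ → 0 ≤ θ → θ < 1 → Fam v τ →
      ∃ E : Set (Fin 2 × Fin k → ℝ), dimH E ≤ ENNReal.ofReal (2 * ((k : ℝ) - 1) + (β + τ) / (1 - θ)) ∧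
        (1 ≤ k → 2 * θ < 2 - β - τ → dimH E < ((2 * k : ℕ) : ENNReal) ∧ MeasureTheory.volume E = 0) ∧
        ∀ M, M ∉ E → ∀ c : ℝ, {i | ¬ ∀ q : ℚ, a ≤ q → q ≤ b → Near M (v i) (c * ‖v i‖ ^ θ) q →
          ∀ P : MvPolynomial (Option (Fin n)) ℤ, P ≠ 0 → (∀ x, P.degreeOf x ≤ d) →
            (∀ s, |((P.coeff s : ℤ) : ℝ)| ≤ (ht q : ℝ) ^ A) →
              (ht q : ℝ) ^ (-B) < |MvPolynomial.aeval (values α γ q) P|}.Finite) ∧
    (∀ d : ℕ, 1 ≤ d → Fam (fun (n : ℕ) (j : Fin (d + 1)) => (n : ℝ) ^ (j : ℕ)) (1 / d)) ∧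
    (∀ (k : ℕ) (b : Fin k → ℝ), (∀ j, 1 < b j) → Fam (fun (n : Fin k → ℕ) (j : Fin k) => b j ^ n j) 0) ∧
    (∀ (k : ℕ) (a : Fin k → ℝ), (∀ j, 0 < a j) →
      Fam (fun (n : Fin k → ℕ) (j : Fin k) => (n j : ℝ) ^ a j) (∑ j, 1 / a j)) ∧
    ∀ (k : ℕ) (u : Fin k → ℕ → ℝ) (τ : Fin k → ℝ), (∀ j, Sq (u j) (τ j)) →
      Fam (fun (n : Fin k → ℕ) (j : Fin k) => u j (n j)) (∑ j, τ j) :=
  ⟨Run7.h95.LF.poly_one a b (fun q P => |MvPolynomial.aeval (values α γ q) P|) d hA (Pool.Agent.R482.ST.beta_pos hβ)
    (RationalParameters.result n d α γ hα hH a b hab ha A β hA hβ), examples⟩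

end Pool.Agent.Results.MP_26ad15_nt.GenericLinearForms
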