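import Pool.Agent.Run7.h788.ReflT

/-!
# The Gamma function at the points of a number field

`K` is a number field of degree `d` in `ℂ` and `z_1, ..., z_n` are non-integral elements of `K` in
different classes modulo sign and integers.

* If all the products `Γ(z_i) Γ(1 - z_i)` are algebraic then `(n + 2)^2 ≤ 4 d + 1`.
* If `w`, the dimension of the `ℚ`-space spanned by `1` and the `z_i`, is at most `n` and
  `(w + 1)^2 > 4 d + 1`, then the products generate a field of transcendence degree at least `2`.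
-/

namespace Pool.Agent.Results.MP_26ad15_nt.NumberFields

theorem result (K : IntermediateField ℚ ℂ) [FiniteDimensional ℚ K] (n : ℕ) (z : Fin n → ℂ)
    (hzK : ∀ i, z i ∈ K) (hz : ∀ i, ∀ m : ℤ, z i ≠ m)
    (hd : ∀ i j, i ≠ j → ∀ m : ℤ, z i ≠ z j + m ∧ z i ≠ -z j + m) :
    ((∀ i, IsAlgebraic ℚ (Complex.Gamma (z i) * Complex.Gamma (1 - z i))) →
      (n + 2) ^ 2 ≤ 4 * Module.finrank ℚ K + 1) ∧
    (Module.finrank ℚ (Submodule.span ℚ (Set.range (Fin.cons 1 z : Fin (n + 1) → ℂ))) ≤ n →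
      4 * Module.finrank ℚ K + 1 <
        (Module.finrank ℚ (Submodule.span ℚ (Set.range (Fin.cons 1 z : Fin (n + 1) → ℂ))) + 1) ^ 2 →
      2 ≤ Algebra.trdeg ℚ (IntermediateField.adjoin ℚ
        (Set.range fun i => Complex.Gamma (z i) * Complex.Gamma (1 - z i)))) := by
  refine ⟨fun h => Pool.Agent.Run7.h788.Refl.number_field K z hzK ⟨hz, hd⟩ h, fun hn hw => ?_⟩
  apply Pool.Agent.Run7.h788.Refl.trdeg_ge_two
  intro θ
  obtain ⟨i, hi⟩ := Pool.Agent.Run7.h788.Refl.trdeg_two K z hzK ⟨hz, hd⟩ hn hw θ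
  exact ⟨_, ⟨i, rfl⟩, hi⟩

end Pool.Agent.Results.MP_26ad15_nt.NumberFields
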