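import Pool.Agent.Run7.h788.ReflG

/-!
# The Gamma function at `z` and `1 - z`: independence of the exceptional points

`F` is a subfield of `ℂ` that is algebraically closed in `ℂ` and does not contain `π` (for example
the field of algebraic numbers).  Non-integral points `z_1, ..., z_n` in different classes modulo
sign and integers with all the products `Γ(z_i) Γ(1 - z_i)` in `F` are linearly independent over
`ℚ`, together with `1`.
-/

namespace Pool.Agent.Results.MP_26ad15_nt.ReflectionIndependence

theorem result (F : Subfield ℂ) (hF : ∀ x : ℂ, IsAlgebraic F x → x ∈ F)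
    (hpi : (Real.pi : ℂ) ∉ F) (n : ℕ) (z : Fin n → ℂ) (hz : ∀ i, ∀ m : ℤ, z i ≠ m)
    (hd : ∀ i j, i ≠ j → ∀ m : ℤ, z i ≠ z j + m ∧ z i ≠ -z j + m)
    (h : ∀ i, Complex.Gamma (z i) * Complex.Gamma (1 - z i) ∈ F) :
    LinearIndependent ℚ (Fin.cons 1 z : Fin (n + 1) → ℂ) :=
  Pool.Agent.Run7.h788.Refl.indep hF hpi z ⟨hz, hd⟩ h

end Pool.Agent.Results.MP_26ad15_nt.ReflectionIndependence
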